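import Pool.Agent.H19.BFL.Stmts2
import Pool.Agent.H90.BFL.Scl

/-!
# Row SCL: a homogeneous scale
-/

set_option autoImplicit false

namespace Pool.BFL

open Finset

namespace SCL44

/-- The lower envelope of slope at most `K`. -/
noncomputable def psi (g : ℕ → ℕ) (K : ℕ) (S : Finset ℕ) (hS : S.Nonempty) (a : ℕ) : ℝ :=
  S.inf' hS fun b => (g b : ℝ) + K * max ((a : ℝ) - b) 0

variable {g p : ℕ → ℕ} {K γ w N : ℕ} {S : Finset ℕ} {hS : S.Nonempty}

theorem psi_le {a b : ℕ} (hb : b ∈ S) : psi g K S hS a ≤ g b + K * max ((a : ℝ) - b) 0 :=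
  Finset.inf'_le _ hb

theorem psi_mem (a : ℕ) : ∃ b ∈ S, psi g K S hS a = g b + K * max ((a : ℝ) - b) 0 :=
  Finset.exists_mem_eq_inf' hS _

theorem psi_mono {a b : ℕ} (h : a ≤ b) : psi g K S hS a ≤ psi g K S hS b := by
  obtain ⟨c, hc, e⟩ := psi_mem (g := g) (K := K) (hS := hS) b
  rw [e]
  refine (psi_le hc).trans ?_
  have h1 : (a : ℝ) ≤ b := by exact_mod_cast h
  have h2 : max ((a : ℝ) - c) 0 ≤ max ((b : ℝ) - c) 0 := max_le_max (by linarith) le_rfl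
  have h3 : (K : ℝ) * max ((a : ℝ) - c) 0 ≤ K * max ((b : ℝ) - c) 0 :=
    mul_le_mul_of_nonneg_left h2 (Nat.cast_nonneg K)
  linarith

theorem psi_lip {a b : ℕ} (h : a ≤ b) :
    psi g K S hS b ≤ psi g K S hS a + K * ((b : ℝ) - a) := by
  obtain ⟨c, hc, e⟩ := psi_mem (g := g) (K := K) (hS := hS) a
  rw [e]
  refine (psi_le hc).trans ?_
  have h1 : (a : ℝ) ≤ b := by exact_mod_cast h
  have h2 : max ((b : ℝ) - c) 0 ≤ max ((a : ℝ) - c) 0 + ((b : ℝ) - a) := by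
    refine max_le ?_ ?_
    · have := le_max_left ((a : ℝ) - c) 0
      linarith
    · have := le_max_right ((a : ℝ) - c) 0
      linarith
  have h3 := mul_le_mul_of_nonneg_left h2 (Nat.cast_nonneg K : (0 : ℝ) ≤ K)
  linarith

theorem psi_S {a : ℕ} (ha : a ∈ S) : psi g K S hS a ≤ g a := by
  have := psi_le (g := g) (K := K) (hS := hS) (a := a) ha
  rw [sub_self, max_self, mul_zero, add_zero] at this
  exact this

theorem S_psi (hg : Monotone g) (hSN : ∀ b ∈ S, b < N ∧ w ≤ b ∧ g b ≤ p b + γ)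
    (hp : ∀ a a', w ≤ a → a ≤ a' → a' ≤ N → p a' ≤ p a + K * (a' - a) + γ)
    (hpg : ∀ a, w ≤ a → a ≤ N → p a ≤ g a) {a : ℕ} (ha : a ∈ S) :
    (g a : ℝ) - 2 * γ ≤ psi g K S hS a := by
  obtain ⟨b, hb, e⟩ := psi_mem (g := g) (K := K) (hS := hS) a
  rw [e]
  obtain ⟨a1, a2, a3⟩ := hSN a ha
  obtain ⟨b1, b2, b3⟩ := hSN b hb
  rcases le_total a b with h | h
  · have h1 : (g a : ℝ) ≤ g b := by exact_mod_cast hg h
    have h2 : (0 : ℝ) ≤ K * max ((a : ℝ) - b) 0 :=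
      mul_nonneg (Nat.cast_nonneg K) (le_max_right _ _)
    have h3 : (0 : ℝ) ≤ γ := Nat.cast_nonneg γ
    linarith
  · have h1 := hp b a b2 h a1.le
    have h2 := hpg b b2 b1.le
    have h3 : g a ≤ g b + K * (a - b) + 2 * γ := by omega
    have h4 : (g a : ℝ) ≤ g b + K * ((a : ℝ) - b) + 2 * γ := by
      have : (g a : ℝ) ≤ ((g b + K * (a - b) + 2 * γ : ℕ) : ℝ) := by exact_mod_cast h3
      rw [Nat.cast_add, Nat.cast_add, Nat.cast_mul, Nat.cast_sub h, Nat.cast_mul] at this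
      exact_mod_cast this
    have h5 : (K : ℝ) * ((a : ℝ) - b) ≤ K * max ((a : ℝ) - b) 0 :=
      mul_le_mul_of_nonneg_left (le_max_left _ _) (Nat.cast_nonneg K)
    linarith

/-- The data of a good block. -/
structure Blk (g p : ℕ → ℕ) (R : ℕ → Prop) (K γ w N : ℕ) (ψ : ℕ → ℝ) (o ℓ T x : ℕ)
    (s₀ δ : ℝ) : Prop where
  K1 : 1 ≤ K
  T1 : 1 ≤ T
  δ0 : 0 < δ
  gm : Monotone g
  hp : ∀ a a', w ≤ a → a ≤ a' → a' ≤ N → p a' ≤ p a + K * (a' - a) + γ
  hpg : ∀ a, w ≤ a → a ≤ N → p a ≤ g a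
  hg : ∀ a a', w ≤ a → a ≤ a' → a' ≤ N → g a + (a' - a) ≤ g a' + 2
  oN : o + ℓ ≤ N
  Tx : 32 * T ≤ x
  γx : 64 * γ ≤ x
  x1 : 64 ≤ x
  s1 : |s₀| ≤ K
  mono : ∀ a b, a ≤ b → ψ a ≤ ψ b
  lip : ∀ a b, a ≤ b → ψ b ≤ ψ a + K * ((b : ℝ) - a)
  up : ∀ a < N, w ≤ a ∧ g a ≤ p a + γ ∧ R (g a) → ψ a ≤ g a
  lo : ∀ a < N, w ≤ a ∧ g a ≤ p a + γ ∧ R (g a) → (g a : ℝ) - 2 * γ ≤ ψ a
  aff : ∀ v ≤ ℓ, |ψ (o + v) - ψ o - s₀ * v| ≤ x / 64
  den : ∀ u v : ℕ, u + v ≤ ℓ → T ≤ v → ∃ A : Finset ℕ, δ * v ≤ (A.card : ℝ) ∧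
    ∀ a ∈ A, o + u ≤ a ∧ a < o + u + v ∧ w ≤ a ∧ g a ≤ p a + γ ∧ R (g a)

namespace Blk

variable {R : ℕ → Prop} {ψ : ℕ → ℝ} {o ℓ T x : ℕ} {s₀ δ : ℝ}

theorem nb (h : Blk g p R K γ w N ψ o ℓ T x s₀ δ) {u : ℕ} (hu : u + T ≤ ℓ) :
    ∃ a, o + u ≤ a ∧ a < o + u + T ∧ w ≤ a ∧ g a ≤ p a + γ ∧ R (g a) := by
  obtain ⟨A, h1, h2⟩ := h.den u T hu le_rfl
  have hT : (1 : ℝ) ≤ T := by exact_mod_cast h.T1
  have h3 : (0 : ℝ) < A.card := lt_of_lt_of_le (by have := h.δ0; positivity) h1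
  have h4 : 0 < A.card := by exact_mod_cast h3
  obtain ⟨a, ha⟩ := Finset.card_pos.1 h4
  exact ⟨a, h2 a ha⟩

theorem w_le (h : Blk g p R K γ w N ψ o ℓ T x s₀ δ) (hT : 2 * T ≤ ℓ) {v : ℕ} (hv : T ≤ v) :
    w ≤ o + v := by
  obtain ⟨a, h1, h2, h3, -⟩ := h.nb (u := 0) (by omega)
  omega

/-- Inside the block `g` is near `ψ`. -/
theorem near (h : Blk g p R K γ w N ψ o ℓ T x s₀ δ) {v : ℕ} (hv : T ≤ v) (hv' : v + T ≤ ℓ) :
    |(g (o + v) : ℝ) - ψ (o + v)| ≤ K * x / 16 := by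
  have hoN := h.oN
  obtain ⟨a, a1, a2, a3⟩ := h.nb (u := v - T) (by omega)
  obtain ⟨b, b1, b2, b3⟩ := h.nb (u := v) hv'
  have hTx : 32 * (T : ℝ) ≤ x := by exact_mod_cast h.Tx
  have hγx : 64 * (γ : ℝ) ≤ x := by exact_mod_cast h.γx
  have hK : (1 : ℝ) ≤ K := by exact_mod_cast h.K1
  have hx0 : (0 : ℝ) ≤ x := Nat.cast_nonneg x
  have hKT : (K : ℝ) * T ≤ K * (x / 32) := mul_le_mul_of_nonneg_left (by linarith) (by linarith)
  have hKx : (x : ℝ) ≤ K * x := by nlinarith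
  -- upper bound
  have u1 : (g (o + v) : ℝ) ≤ g b := by exact_mod_cast h.gm b1
  have u2 := h.lo b (by omega) b3
  have u3 := h.lip (o + v) b b1
  have u4 : ((b : ℝ) - ((o + v : ℕ) : ℝ)) ≤ T := by
    have : b ≤ o + v + T := by omega
    have : (b : ℝ) ≤ ((o + v + T : ℕ) : ℝ) := by exact_mod_cast this
    push_cast at this ⊢
    linarith
  have u5 : (K : ℝ) * ((b : ℝ) - ((o + v : ℕ) : ℝ)) ≤ K * T :=
    mul_le_mul_of_nonneg_left u4 (by linarith)
  -- lower bound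
  have l1 : (g a : ℝ) ≤ g (o + v) := by exact_mod_cast h.gm (by omega : a ≤ o + v)
  have l2 := h.up a (by omega) a3
  have l3 := h.lip a (o + v) (by omega)
  have l4 : (((o + v : ℕ) : ℝ) - a) ≤ T := by
    have : o + v ≤ a + T := by omega
    have : ((o + v : ℕ) : ℝ) ≤ ((a + T : ℕ) : ℝ) := by exact_mod_cast this
    push_cast at this ⊢
    linarith
  have l5 : (K : ℝ) * (((o + v : ℕ) : ℝ) - a) ≤ K * T :=
    mul_le_mul_of_nonneg_left l4 (by linarith)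
  rw [abs_le]
  constructor <;> linarith

/-- Inside the block `g` is almost affine. -/
theorem aff0 (h : Blk g p R K γ w N ψ o ℓ T x s₀ δ) {v v' : ℕ} (hv : T ≤ v) (hvv : v ≤ v')
    (hv' : v' + T ≤ ℓ) :
    |(g (o + v') : ℝ) - g (o + v) - s₀ * ((v' : ℝ) - v)| ≤ 5 * K * x / 32 := by
  have h1 := h.near hv (by omega)
  have h2 := h.near (hv.trans hvv) hv'
  have h3 := h.aff v (by omega)
  have h4 := h.aff v' (by omega)
  have hK : (1 : ℝ) ≤ K := by exact_mod_cast h.K1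
  have hx0 : (0 : ℝ) ≤ x := Nat.cast_nonneg x
  have hKx : (x : ℝ) ≤ K * x := by nlinarith
  rw [abs_le] at *
  constructor <;> linarith [h1.1, h1.2, h2.1, h2.2, h3.1, h3.2, h4.1, h4.2]

theorem slope (h : Blk g p R K γ w N ψ o ℓ T x s₀ δ) {v v' : ℕ} (hT : 2 * T ≤ ℓ) (hv : T ≤ v)
    (hvv : v ≤ v') (hv' : v' + T ≤ ℓ) :
    |(g (o + v') : ℝ) - g (o + v) - max s₀ 1 * ((v' : ℝ) - v)| ≤ K * x / 2 := by
  have h1 := h.aff0 hv hvv hv'
  have hK : (1 : ℝ) ≤ K := by exact_mod_cast h.K1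
  have hx0 : (64 : ℝ) ≤ x := by exact_mod_cast h.x1
  have hKx : (x : ℝ) ≤ K * x := by nlinarith
  have hvr : (v : ℝ) ≤ v' := by exact_mod_cast hvv
  rcases le_total 1 s₀ with hs | hs
  · rw [max_eq_left hs]
    rw [abs_le] at *
    constructor <;> linarith [h1.1, h1.2]
  · rw [max_eq_right hs]
    have hoN := h.oN
    have h2 := h.hg (o + v) (o + v') (h.w_le hT hv) (by omega) (by omega)
    have h3 : ((v' : ℝ) - v) ≤ (g (o + v') : ℝ) - g (o + v) + 2 := by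
      have : g (o + v) + (v' - v) ≤ g (o + v') + 2 := by
        have e : o + v' - (o + v) = v' - v := by omega
        rw [e] at h2
        exact h2
      have : ((g (o + v) + (v' - v) : ℕ) : ℝ) ≤ ((g (o + v') + 2 : ℕ) : ℝ) := by
        exact_mod_cast this
      rw [Nat.cast_add, Nat.cast_sub hvv] at this
      push_cast at this
      linarith
    have h4 : s₀ * ((v' : ℝ) - v) ≤ 1 * ((v' : ℝ) - v) :=
      mul_le_mul_of_nonneg_right hs (by linarith)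
    rw [abs_le] at *
    constructor <;> linarith [h1.1, h1.2]

/-- The point of `S` after a point of the block. -/
theorem next (h : Blk g p R K γ w N ψ o ℓ T x s₀ δ) {v : ℕ} (hv' : v + T ≤ ℓ) :
    ∃ b, o + v ≤ b ∧ b < N ∧ w ≤ b ∧ g b ≤ p b + γ ∧ R (g b) := by
  have hoN := h.oN
  obtain ⟨b, b1, b2, b3⟩ := h.nb hv'
  exact ⟨b, b1, by omega, b3⟩

theorem gap (h : Blk g p R K γ w N ψ o ℓ T x s₀ δ) (hT : 2 * T ≤ ℓ) {v : ℕ} (hv : T ≤ v)
    (hv' : v + T ≤ ℓ) : g (o + v) ≤ p (o + v) + 4 * K * x := by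
  have hoN := h.oN
  obtain ⟨b, b1, b2, b3, b4, b5⟩ := h.nb hv'
  have h1 := h.gm b1
  have h2 := h.hp (o + v) b (h.w_le hT hv) b1 (by omega)
  have h3 : K * (b - (o + v)) ≤ K * x := Nat.mul_le_mul_left K (by have := h.Tx; omega)
  have h4 : x ≤ K * x := by
    calc x = 1 * x := (one_mul x).symm
      _ ≤ K * x := Nat.mul_le_mul_right x h.K1
  have h5 := h.γx
  have h6 : 4 * K * x = 4 * (K * x) := by ring
  omega

/-- The rows which are not full. -/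
theorem rows (h : Blk g p R K γ w N ψ o ℓ T x s₀ δ) {v₀ v₁ P₁ P₂ : ℕ}
    (hv : T ≤ v₀) (hvv : v₀ ≤ v₁) (hv₁ : v₁ + T ≤ ℓ) (h1 : g (o + v₀) ≤ P₁)
    (h2 : P₁ + 32 * K * x ≤ P₂) (h3 : P₂ ≤ g (o + v₁)) :
    ∃ B : Finset ℕ, δ / (4 * K) * ((P₂ : ℝ) - P₁) ≤ (B.card : ℝ) ∧
      ∀ P ∈ B, P₁ ≤ P ∧ P < P₂ ∧ R P := by
  classical
  have hoN := h.oN
  have hK : (1 : ℝ) ≤ K := by exact_mod_cast h.K1
  have hx0 : (64 : ℝ) ≤ x := by exact_mod_cast h.x1
  have hKx : (x : ℝ) ≤ K * x := by nlinarith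
  have h2r : (P₁ : ℝ) + 32 * K * x ≤ P₂ := by exact_mod_cast h2
  -- the first points above the two levels
  have hex2 : ∃ v, v₀ ≤ v ∧ P₂ ≤ g (o + v) := ⟨v₁, hvv, h3⟩
  have hex1 : ∃ v, v₀ ≤ v ∧ P₁ ≤ g (o + v) := by
    refine ⟨v₁, hvv, le_trans ?_ h3⟩
    exact le_trans (Nat.le_add_right _ _) h2
  obtain ⟨β, hβ⟩ : ∃ β, β = Nat.find hex2 := ⟨_, rfl⟩
  obtain ⟨α, hα⟩ : ∃ α, α = Nat.find hex1 := ⟨_, rfl⟩
  have hβ1 : v₀ ≤ β ∧ P₂ ≤ g (o + β) := by rw [hβ]; exact Nat.find_spec hex2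
  have hα1 : v₀ ≤ α ∧ P₁ ≤ g (o + α) := by rw [hα]; exact Nat.find_spec hex1
  have hβv : β ≤ v₁ := by rw [hβ]; exact Nat.find_min' hex2 ⟨hvv, h3⟩
  have hαβ : α ≤ β := by
    rw [hα]
    exact Nat.find_min' hex1 ⟨hβ1.1, (le_trans (Nat.le_add_right _ _) h2).trans hβ1.2⟩
  -- the point before `α`
  obtain ⟨α', hα'1, hα'2, hα'3, hα'4⟩ : ∃ α', v₀ ≤ α' ∧ α' ≤ α ∧ α ≤ α' + 1 ∧
      g (o + α') ≤ P₁ := by
    rcases Nat.eq_or_lt_of_le hα1.1 with h4 | h4
    · exact ⟨v₀, le_rfl, h4.le, by omega, h1⟩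
    · refine ⟨α - 1, by omega, by omega, by omega, ?_⟩
      have h5 : α - 1 < Nat.find hex1 := by rw [← hα]; omega
      have h6 := Nat.find_min hex1 h5
      push Not at h6
      exact (h6 (by omega)).le
  -- the number of points
  have hsl := h.aff0 (v := α') (v' := β) (hv.trans hα'1) (hα'2.trans hαβ) (by omega)
  have k1 : (P₂ : ℝ) - P₁ ≤ (g (o + β) : ℝ) - g (o + α') := by
    have e1 : (P₂ : ℝ) ≤ g (o + β) := by exact_mod_cast hβ1.2
    have e2 : (g (o + α') : ℝ) ≤ P₁ := by exact_mod_cast hα'4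
    linarith
  have hs0 : s₀ ≤ K := (abs_le.1 h.s1).2
  have k2 : s₀ * ((β : ℝ) - α') ≤ K * ((β : ℝ) - α + 1) := by
    have e1 : (0 : ℝ) ≤ (β : ℝ) - α' := by
      have : (α' : ℝ) ≤ β := by exact_mod_cast hα'2.trans hαβ
      linarith
    have e2 : (β : ℝ) - α' ≤ (β : ℝ) - α + 1 := by
      have : (α : ℝ) ≤ α' + 1 := by exact_mod_cast hα'3
      linarith
    calc s₀ * ((β : ℝ) - α') ≤ K * ((β : ℝ) - α') := mul_le_mul_of_nonneg_right hs0 e1
      _ ≤ _ := mul_le_mul_of_nonneg_left e2 (by linarith)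
  have k3 : (P₂ : ℝ) - P₁ ≤ K * ((β : ℝ) - α) + K + 5 * K * x / 32 := by
    have := (abs_le.1 hsl).2
    linarith
  have k4 : 15 / 16 * ((P₂ : ℝ) - P₁) ≤ K * ((β : ℝ) - α) := by
    have e1 : (K : ℝ) ≤ K * x / 64 := by
      rw [le_div_iff₀ (by norm_num)]
      exact mul_le_mul_of_nonneg_left hx0 (by linarith)
    linarith
  have k5 : T ≤ β - α := by
    have e1 : (K : ℝ) * T ≤ K * ((β : ℝ) - α) := by
      refine le_trans ?_ k4
      have e2 : 32 * (T : ℝ) ≤ x := by exact_mod_cast h.Tx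
      have e3 : (K : ℝ) * (32 * T) ≤ K * x := mul_le_mul_of_nonneg_left e2 (by linarith)
      linarith
    have e4 : (T : ℝ) ≤ (β : ℝ) - α := le_of_mul_le_mul_left e1 (by linarith)
    have e5 : ((T + α : ℕ) : ℝ) ≤ β := by push_cast; linarith
    have e6 : T + α ≤ β := by exact_mod_cast e5
    omega
  exact by
   obtain ⟨A, hA1, hA2⟩ := h.den α (β - α) (by omega) k5
   rw [Nat.cast_sub hαβ] at hA1
   refine ⟨A.image g, ?_, ?_⟩
   · have hfib : A.card ≤ 3 * (A.image g).card := by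
       refine Finset.card_le_mul_card_image A 3 fun P hP => ?_
       obtain ⟨a₀, ha₀, hPa⟩ := Finset.mem_image.1 hP
       have hne : (A.filter fun a => g a = P).Nonempty :=
         ⟨a₀, Finset.mem_filter.2 ⟨ha₀, hPa⟩⟩
       obtain ⟨a₁, ha₁⟩ : ∃ a₁, a₁ = (A.filter fun a => g a = P).min' hne := ⟨_, rfl⟩
       have ha₁m : a₁ ∈ A.filter fun a => g a = P := by rw [ha₁]; exact Finset.min'_mem _ _
       have hsub : (A.filter fun a => g a = P) ⊆ Finset.Icc a₁ (a₁ + 2) := by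
         intro b hb
         have hb1 : a₁ ≤ b := by rw [ha₁]; exact Finset.min'_le _ _ hb
         rw [Finset.mem_filter] at hb ha₁m
         obtain ⟨c1, c2, c3, -⟩ := hA2 a₁ ha₁m.1
         obtain ⟨d1, d2, d3, -⟩ := hA2 b hb.1
         have e1 := h.hg a₁ b c3 hb1 (by omega)
         rw [Finset.mem_Icc]
         omega
       refine (Finset.card_le_card hsub).trans ?_
       rw [Nat.card_Icc]
       omega
     have hfibr : (A.card : ℝ) ≤ 3 * ((A.image g).card : ℝ) := by exact_mod_cast hfib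
     have hδ := h.δ0
     have e1 : δ / (4 * K) * ((P₂ : ℝ) - P₁) ≤ δ / (3 * K) * (15 / 16 * ((P₂ : ℝ) - P₁)) := by
       have e2 : δ / (3 * K) * (15 / 16 * ((P₂ : ℝ) - P₁)) =
           (5 / 4) * (δ / (4 * K) * ((P₂ : ℝ) - P₁)) := by
         field_simp
         ring
       rw [e2]
       have e3 : 0 ≤ δ / (4 * K) * ((P₂ : ℝ) - P₁) := by
         have : (0 : ℝ) ≤ (P₂ : ℝ) - P₁ := by
           have : 0 ≤ 32 * (K : ℝ) * x := by positivity
           linarith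
         positivity
       linarith
     have e2 : δ / (3 * K) * (15 / 16 * ((P₂ : ℝ) - P₁)) ≤
         δ / (3 * K) * (K * ((β : ℝ) - α)) := mul_le_mul_of_nonneg_left k4 (by positivity)
     have e3 : δ / (3 * K) * (K * ((β : ℝ) - α)) = δ * ((β : ℝ) - α) / 3 := by
       field_simp
     rw [e3] at e2
     linarith
   · intro P hP
     obtain ⟨a, ha, rfl⟩ := Finset.mem_image.1 hP
     obtain ⟨c1, c2, c3, c4, c5⟩ := hA2 a ha
     refine ⟨hα1.2.trans (h.gm c1), ?_, c5⟩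
     obtain ⟨v, hv⟩ : ∃ v, a = o + v := ⟨a - o, by omega⟩
     have h7 : v < Nat.find hex2 := by rw [← hβ]; omega
     have h8 := Nat.find_min hex2 h7
     push Not at h8
     rw [hv]
     exact h8 (by omega)

end Blk

end SCL44

open SCL44 in
theorem scl_thm : SCLStmt := by
  classical
  intro K B Λ ε η hK hB hΛ hε hη
  obtain ⟨D, hD⟩ : ∃ D, D = 2 * ((Λ + 1) * B) := ⟨_, rfl⟩
  have hD1 : 1 ≤ D := by
    rw [hD]
    have : 1 ≤ (Λ + 1) * B := Nat.mul_pos (by omega) hB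
    omega
  have hDr : (1 : ℝ) ≤ D := by exact_mod_cast hD1
  obtain ⟨q, M, hq, hM, hscl⟩ := scl K (ε / 2) (1 / (128 * D)) (Nat.cast_nonneg K) (by positivity)
    (by positivity)
  obtain ⟨E, hE⟩ := exists_nat_gt (2 / ε)
  have hE0 : 1 ≤ E := by
    have : (0 : ℝ) < E := lt_trans (by positivity) hE
    exact_mod_cast this
  have hqM : 1 ≤ q ^ M := Nat.one_le_pow _ _ hq
  refine ⟨256 * D * q ^ M * E, ?_, ?_⟩
  · have := Nat.mul_pos (Nat.mul_pos (Nat.mul_pos (by norm_num : 0 < 256) hD1) hqM) hE0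
    exact this
  intro N g p R w γ hN hγ hgm hgN hp hpg hg hcard
  obtain ⟨N₁, hN₁⟩ : ∃ N₁, N₁ = 256 * D * q ^ M * E := ⟨_, rfl⟩
  rw [← hN₁] at hN hγ ⊢
  have hN₁1 : 1 ≤ N₁ := by
    rw [hN₁]
    exact Nat.mul_pos (Nat.mul_pos (Nat.mul_pos (by norm_num : 0 < 256) hD1) hqM) hE0
  have hN₁2 : 256 * D * q ^ M ≤ N₁ := by
    rw [hN₁]
    exact Nat.le_mul_of_pos_right _ hE0
  have hNN : N₁ ≤ N := le_trans (Nat.le_mul_of_pos_right _ hN₁1) hN
  have hN0 : 0 < N := lt_of_lt_of_le hN₁1 hNN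
  -- the scales
  obtain ⟨u, hu⟩ : ∃ u, u = N / q ^ M := ⟨_, rfl⟩
  have hu1 : q ^ M * u ≤ N := by rw [hu]; exact Nat.mul_div_le N (q ^ M)
  have hu2 : N < q ^ M * (u + 1) := by rw [hu]; exact Nat.lt_mul_div_succ N hqM
  have hu3 : 256 * D ≤ u := by
    rw [hu, Nat.le_div_iff_mul_le hqM]
    exact hN₁2.trans hNN
  have hu0 : 0 < u := by omega
  have hNu : N ≤ 2 * (q ^ M * u) := by
    have h1 : q ^ M * (u + 1) = q ^ M * u + q ^ M := by ring
    have h2 : q ^ M ≤ q ^ M * u := Nat.le_mul_of_pos_right _ hu0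
    omega
  obtain ⟨ℓ, hℓ⟩ : ∃ ℓ : ℕ → ℕ, ℓ = fun k => q ^ (M - k) * u := ⟨_, rfl⟩
  have hℓk : ∀ k, ℓ k = q ^ (M - k) * u := fun k => by rw [hℓ]
  have hℓ0 : ℓ 0 = q ^ M * u := by rw [hℓk, Nat.sub_zero]
  have hℓpos : ∀ k ≤ M, 0 < ℓ k := fun k _ => by
    rw [hℓk]; exact Nat.mul_pos (Nat.pow_pos hq) hu0
  have hℓq : ∀ k < M, q * ℓ (k + 1) = ℓ k := by
    intro k hk
    rw [hℓk, hℓk, ← Nat.mul_assoc, ← Nat.pow_succ']
    congr 2
    omega
  -- the set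
  obtain ⟨Z, hZ⟩ : ∃ Z : ℕ → Prop, Z = fun a => w ≤ a ∧ g a ≤ p a + γ ∧ R (g a) := ⟨_, rfl⟩
  have hZa : ∀ a, Z a ↔ w ≤ a ∧ g a ≤ p a + γ ∧ R (g a) := fun a => by rw [hZ]
  obtain ⟨S, hS⟩ : ∃ S : Finset ℕ, S = (range N).filter Z := ⟨_, rfl⟩
  have hScard : ε * N ≤ (S.card : ℝ) := by
    refine hcard.trans (le_of_eq ?_)
    rw [hS]
    congr 2
    refine Finset.filter_congr fun a _ => ?_
    rw [hZa]
  have hNr : (0 : ℝ) < N := by exact_mod_cast hN0
  have hSne : S.Nonempty := by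
    rw [← Finset.card_pos]
    have : (0 : ℝ) < S.card := lt_of_lt_of_le (by positivity) hScard
    exact_mod_cast this
  have hSm : ∀ b ∈ S, b < N ∧ w ≤ b ∧ g b ≤ p b + γ := by
    intro b hb
    rw [hS, Finset.mem_filter, Finset.mem_range, hZa] at hb
    exact ⟨hb.1, hb.2.1, hb.2.2.1⟩
  obtain ⟨ψ, hψ⟩ : ∃ ψ : ℕ → ℝ, ψ = psi g K S hSne := ⟨_, rfl⟩
  have hmono : ∀ a b, a ≤ b → ψ a ≤ ψ b := fun a b h => by rw [hψ]; exact psi_mono h
  have hlip : ∀ a b, a ≤ b → ψ b ≤ ψ a + K * ((b : ℝ) - a) := fun a b h => by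
    rw [hψ]; exact psi_lip h
  -- the density
  have hdens : ε / 2 * ((1 * ℓ 0 : ℕ) : ℝ) ≤ (((range (1 * ℓ 0)).filter Z).card : ℝ) := by
    rw [one_mul, hℓ0]
    have h1 : S.card ≤ ((range (q ^ M * u)).filter Z).card + q ^ M := by
      have h2 : S ⊆ (range (q ^ M * u)).filter Z ∪ Finset.Ico (q ^ M * u) N := by
        intro a ha
        rw [hS, Finset.mem_filter, Finset.mem_range] at ha
        rw [Finset.mem_union, Finset.mem_filter, Finset.mem_range, Finset.mem_Ico]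
        by_cases h : a < q ^ M * u
        · exact Or.inl ⟨h, ha.2⟩
        · exact Or.inr ⟨not_lt.1 h, ha.1⟩
      refine (Finset.card_le_card h2).trans ((Finset.card_union_le _ _).trans ?_)
      rw [Nat.card_Ico]
      have h3 : q ^ M * (u + 1) = q ^ M * u + q ^ M := by ring
      omega
    have h1r : (S.card : ℝ) ≤ (((range (q ^ M * u)).filter Z).card : ℝ) + (q ^ M : ℕ) := by
      exact_mod_cast h1
    have h2 : ((q ^ M : ℕ) : ℝ) ≤ ε / 2 * N := by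
      have h3 : (q ^ M * E : ℕ) ≤ N := by
        refine le_trans ?_ hNN
        rw [hN₁]
        have : 256 * D * q ^ M * E = 256 * D * (q ^ M * E) := by ring
        rw [this]
        exact Nat.le_mul_of_pos_left _ (by omega)
      have h4 : ((q ^ M : ℕ) : ℝ) * E ≤ N := by exact_mod_cast h3
      have h5 : (0 : ℝ) < ((q ^ M : ℕ) : ℝ) := by exact_mod_cast hqM
      have h6 : ((q ^ M : ℕ) : ℝ) * (2 / ε) ≤ N :=
        (mul_le_mul_of_nonneg_left hE.le h5.le).trans h4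
      have h7 : ((q ^ M : ℕ) : ℝ) * (2 / ε) * (ε / 2) ≤ N * (ε / 2) :=
        mul_le_mul_of_nonneg_right h6 (by positivity)
      have h8 : ((q ^ M : ℕ) : ℝ) * (2 / ε) * (ε / 2) = ((q ^ M : ℕ) : ℝ) := by
        field_simp
      rw [h8] at h7
      linarith
    have h3 : ((q ^ M * u : ℕ) : ℝ) ≤ N := by exact_mod_cast hu1
    have h4 : ε / 2 * ((q ^ M * u : ℕ) : ℝ) ≤ ε / 2 * N :=
      mul_le_mul_of_nonneg_left h3 (by positivity)
    linarith
  obtain ⟨k, hk, I, hI, s₀, hs₀, haff, hden⟩ := hscl ℓ 1 one_pos hℓpos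
    (fun k hk => ⟨q, by rw [← hℓq k hk]; ring⟩) (fun k hk => (hℓq k hk).le) ψ Z
    (fun a b hab _ => by
      rw [abs_le]
      have h1 := hmono a b hab
      have h2 := hlip a b hab
      have h3 : (0 : ℝ) ≤ K * ((b : ℝ) - a) :=
        mul_nonneg (Nat.cast_nonneg K) (by
          have : (a : ℝ) ≤ b := by exact_mod_cast hab
          linarith)
      constructor <;> linarith) hdens
  -- the block
  obtain ⟨L, hL⟩ : ∃ L, L = ℓ k := ⟨_, rfl⟩
  obtain ⟨o, ho⟩ : ∃ o, o = I * L := ⟨_, rfl⟩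
  rw [← hL, ← ho] at haff hden
  rw [← hL] at hI
  have huL : u ≤ L := by
    rw [hL, hℓk]
    exact Nat.le_mul_of_pos_left _ (Nat.pow_pos hq)
  have hoL : o + L ≤ N := by
    have h1 : (I + 1) * L = o + L := by rw [ho]; ring
    rw [h1, one_mul, hℓ0] at hI
    exact hI.trans hu1
  obtain ⟨x, hx⟩ : ∃ x, x = L / D := ⟨_, rfl⟩
  have hx1 : D * x ≤ L := by rw [hx]; exact Nat.mul_div_le L D
  have hx2 : L < D * (x + 1) := by rw [hx]; exact Nat.lt_mul_div_succ L hD1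
  have hx3 : 256 ≤ x := by
    rw [hx, Nat.le_div_iff_mul_le hD1]
    exact hu3.trans huL
  have hx4 : L ≤ 2 * (D * x) := by
    have h1 : D * (x + 1) = D * x + D := by ring
    have h2 : D ≤ D * x := Nat.le_mul_of_pos_right _ (by omega)
    omega
  have hNx : N ≤ 4 * (q ^ M * (D * x)) := by
    have h1 : q ^ M * u ≤ q ^ M * (2 * (D * x)) := Nat.mul_le_mul_left _ (huL.trans hx4)
    have h2 : q ^ M * (2 * (D * x)) = 2 * (q ^ M * (D * x)) := by ring
    omega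
  have hNx1 : 64 * N ≤ N₁ * x := by
    have h1 : 256 * D * q ^ M * x ≤ N₁ * x := Nat.mul_le_mul_right x hN₁2
    have h2 : 256 * D * q ^ M * x = 64 * (4 * (q ^ M * (D * x))) := by ring
    omega
  have hγx : 64 * γ ≤ x := by
    have h1 : N₁ * (64 * γ) ≤ N₁ * x := by
      have : N₁ * (64 * γ) = 64 * (N₁ * γ) := by ring
      omega
    exact Nat.le_of_mul_le_mul_left h1 hN₁1
  have hxr : (256 : ℝ) ≤ x := by exact_mod_cast hx3
  have hτL : 1 / (128 * (D : ℝ)) * L ≤ x / 64 := by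
    have h1 : (L : ℝ) ≤ 2 * (D * x) := by exact_mod_cast hx4
    have h2 : 1 / (128 * (D : ℝ)) * L ≤ 1 / (128 * (D : ℝ)) * (2 * (D * x)) :=
      mul_le_mul_of_nonneg_left h1 (by positivity)
    have h3 : 1 / (128 * (D : ℝ)) * (2 * (D * x)) = x / 64 := by
      field_simp
      ring
    linarith
  obtain ⟨T, hT⟩ : ∃ T, T = ⌈1 / (128 * (D : ℝ)) * L⌉₊ := ⟨_, rfl⟩
  have hLr : (0 : ℝ) < L := by
    have : 0 < L := lt_of_lt_of_le hu0 huL
    exact_mod_cast this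
  have hT1 : 1 / (128 * (D : ℝ)) * L ≤ T := by rw [hT]; exact Nat.le_ceil _
  have hT2 : (T : ℝ) < 1 / (128 * (D : ℝ)) * L + 1 := by
    rw [hT]; exact Nat.ceil_lt_add_one (by positivity)
  have hT3 : 1 ≤ T := by
    have : (0 : ℝ) < T := lt_of_lt_of_le (by positivity) hT1
    exact_mod_cast this
  have hTx : 32 * T ≤ x := by
    have : 32 * (T : ℝ) ≤ x := by linarith
    exact_mod_cast this
  have hblk : Blk g p R K γ w N ψ o L T x s₀ (ε / 2 / 4) := by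
    refine ⟨hK, hT3, by positivity, hgm, hp, hpg, hg, hoL, hTx, hγx, by omega, hs₀, hmono, hlip,
      ?_, ?_, ?_, ?_⟩
    · intro a ha hZ'
      rw [hψ]
      refine psi_S ?_
      rw [hS, Finset.mem_filter, Finset.mem_range, hZa]
      exact ⟨ha, hZ'⟩
    · intro a ha hZ'
      rw [hψ]
      refine S_psi hgm hSm hp hpg ?_
      rw [hS, Finset.mem_filter, Finset.mem_range, hZa]
      exact ⟨ha, hZ'⟩
    · intro v hv
      exact (haff v hv).trans hτL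
    · intro u' v huv hTv
      refine ⟨(Ico (o + u') (o + u' + v)).filter Z, ?_, ?_⟩
      · refine hden u' v huv (hT1.trans ?_)
        exact_mod_cast hTv
      · intro a ha
        rw [Finset.mem_filter, Finset.mem_Ico, hZa] at ha
        exact ⟨ha.1.1, ha.1.2, ha.2⟩
  have h2T : 2 * T ≤ L := by
    have h1 : x ≤ D * x := Nat.le_mul_of_pos_left _ hD1
    omega
  -- positions inside the block
  have hpos : ∀ j, j ≤ (Λ + 1) * B → T + j * x + T ≤ L := by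
    intro j hj
    have h1 : j * x ≤ (Λ + 1) * B * x := Nat.mul_le_mul_right x hj
    have h2 : 2 * ((Λ + 1) * B * x) = D * x := by rw [hD]; ring
    have h3 : x ≤ (Λ + 1) * B * x := Nat.le_mul_of_pos_left _ (Nat.mul_pos (by omega) hB)
    omega
  have hkv : ∀ j v, j < Λ * B → v ≤ B → j + v ≤ (Λ + 1) * B := by
    intro j v hj hv
    have : (Λ + 1) * B = Λ * B + B := by ring
    omega
  refine ⟨x, o + T, max s₀ 1, range (Λ * B), by omega, ?_, hblk.w_le h2T le_rfl, ?_,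
    le_max_right _ _, max_le (abs_le.1 hs₀).2 (by exact_mod_cast hK), le_rfl, ?_, ?_⟩
  · have h1 : N₁ * N₁ ≤ N₁ * x := by omega
    exact Nat.le_of_mul_le_mul_left h1 hN₁1
  · have := hpos ((Λ + 1) * B) le_rfl
    omega
  · rw [Finset.card_range]
    push_cast
    have h1 : (0 : ℝ) ≤ Λ * B := by positivity
    nlinarith
  intro j hj
  rw [Finset.mem_range] at hj
  have hj0 := hpos (j + 0) (hkv j 0 hj (Nat.zero_le _))
  have hjB := hpos (j + B) (hkv j B hj le_rfl)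
  refine ⟨fun v hv => ?_, fun v hv => ?_, fun P₁ P₂ h1 h2 h3 => ?_, ?_⟩
  · have h1 := hpos (j + v) (hkv j v hj hv)
    have h2 := hblk.slope (v := T + j * x) (v' := T + (j + v) * x) h2T (by omega)
      (by have := Nat.mul_le_mul_right x (Nat.le_add_right j v); omega) h1
    have e1 : o + (T + (j + v) * x) = o + T + (j + v) * x := by ring
    have e2 : o + (T + j * x) = o + T + j * x := by ring
    rw [e1, e2] at h2
    have e3 : (((T + (j + v) * x : ℕ) : ℝ) - ((T + j * x : ℕ) : ℝ)) = v * x := by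
      push_cast
      ring
    rw [e3] at h2
    refine h2.trans ?_
    have : (0 : ℝ) ≤ K * x := by positivity
    linarith
  · have h1 := hpos (j + v) (hkv j v hj hv)
    have h2 := hblk.gap h2T (v := T + (j + v) * x) (by omega) h1
    have e1 : o + (T + (j + v) * x) = o + T + (j + v) * x := by ring
    rw [e1] at h2
    exact h2
  · have e1 : o + (T + (j + B) * x) = o + T + (j + B) * x := by ring
    have e2 : o + (T + j * x) = o + T + j * x := by ring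
    rw [← e2] at h1
    rw [← e1] at h3
    obtain ⟨A, hA1, hA2⟩ := hblk.rows (v₀ := T + j * x) (v₁ := T + (j + B) * x) (by omega)
      (by have := Nat.mul_le_mul_right x (Nat.le_add_right j B); omega) hjB h1 h2 h3
    have h4 : (A.card : ℝ) ≤ (((Ico P₁ P₂).filter fun P => R P).card : ℝ) := by
      have : A ⊆ (Ico P₁ P₂).filter fun P => R P := by
        intro P hP
        obtain ⟨c1, c2, c3⟩ := hA2 P hP
        rw [Finset.mem_filter, Finset.mem_Ico]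
        exact ⟨⟨c1, c2⟩, c3⟩
      exact_mod_cast Finset.card_le_card this
    refine le_trans (le_of_eq ?_) (hA1.trans h4)
    field_simp
    ring
  · have h2 := hblk.next (v := T + (j + B) * x) hjB
    have e1 : o + (T + (j + B) * x) = o + T + (j + B) * x := by ring
    rw [e1] at h2
    exact h2

end Pool.BFL
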